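import Mathlib
import Pool.Agent.H90.UL.Targets

/-! Module SML of the ul board (MP_e36f12_nt): no configuration with at most seven periods. -/

set_option autoImplicit false

namespace Pool.Agent.H51.UL

open Pool.Agent.H90.UL Finset

/-- one application of the sieve bound: `q` is at most `M * X` -/
theorem rule_le (hS : T_SIV) {a n q M : ℕ} {R : Finset ℕ} (h : Cfg a n q M R) (P : ℕ)
    (F : Finset ℕ) (X : ℕ) (hP : 0 < P) (hPd : ∀ p : ℕ, p.Prime → p ∣ P → p ∣ n)
    (hF : ∀ p ∈ F, p.Prime ∧ M < p ∧ ¬ p ∣ n)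
    (hX : F.card + P.totient * (∏ p ∈ F, (p - M)) *
      ((n + P * (∏ p ∈ F, p) - 1) / (P * ∏ p ∈ F, p)) ≤ X) : a + n ≤ M * X := by
  have h1 := hS a n q M R h.toPre (by have := h.four; omega) P F hP hPd hF
  have h2 : M * R.card ≤ M * X := Nat.mul_le_mul_left M (h1.trans hX)
  have h3 := h.qge
  have h4 := h.qcard
  omega

/-- the sieve bound is contradictory -/
theorem rule_false (hS : T_SIV) {a n q M : ℕ} {R : Finset ℕ} (h : Cfg a n q M R) (P : ℕ)
    (F : Finset ℕ) (X : ℕ) (hP : 0 < P) (hPd : ∀ p : ℕ, p.Prime → p ∣ P → p ∣ n)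
    (hF : ∀ p ∈ F, p.Prime ∧ M < p ∧ ¬ p ∣ n)
    (hX : F.card + P.totient * (∏ p ∈ F, (p - M)) *
      ((n + P * (∏ p ∈ F, p) - 1) / (P * ∏ p ∈ F, p)) ≤ X) (hlt : M * X < M + 1 + n) :
    False := by
  have h1 := rule_le hS h P F X hP hPd hF hX
  have h2 := h.lt
  omega

theorem dvd_of_one {n : ℕ} : ∀ p : ℕ, p.Prime → p ∣ 1 → p ∣ n := fun _ hp h =>
  absurd (Nat.dvd_one.1 h) hp.one_lt.ne'

theorem dvd_of_prime {n r : ℕ} (hr : r.Prime) (hn : r ∣ n) :
    ∀ p : ℕ, p.Prime → p ∣ r → p ∣ n := fun p hp h => by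
  rcases (Nat.dvd_prime hr).1 h with h | h
  · exact absurd h hp.one_lt.ne'
  · exact h ▸ hn

theorem dvd_of_mul {n r s : ℕ} (hr : ∀ p : ℕ, p.Prime → p ∣ r → p ∣ n)
    (hs : ∀ p : ℕ, p.Prime → p ∣ s → p ∣ n) : ∀ p : ℕ, p.Prime → p ∣ r * s → p ∣ n :=
  fun p hp h => by
  rcases hp.dvd_mul.1 h with h | h
  · exact hr p hp h
  · exact hs p hp h

/-- 31 and 451 -/
theorem no_210 {a q M : ℕ} {R : Finset ℕ} (h : Cfg a 210 q M R) (ha : a ≤ 31) : False := by
  have h31 : (31 : ℕ) ∈ R := h.mem 31 (by norm_num) ha (by omega)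
  have h1 := h.chain 31 h31 2 (by have := h.four; omega)
  norm_num at h1

theorem sml_four (hS : T_SIV) {a n q : ℕ} {R : Finset ℕ} (h : Cfg a n q 4 R) : False := by
  have d2 : 2 ∣ n := h.dvd 2 (by norm_num) (by norm_num)
  have d3 : 3 ∣ n := h.dvd 3 (by norm_num) (by norm_num)
  have p2 := dvd_of_prime (n := n) Nat.prime_two d2
  have p3 := dvd_of_prime (n := n) Nat.prime_three d3
  have p6 : ∀ p : ℕ, p.Prime → p ∣ 6 → p ∣ n := dvd_of_mul (r := 2) (s := 3) p2 p3
  have hq := h.qle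
  have hg := h.qge
  have hp := h.pos
  obtain ⟨m, rfl⟩ : 6 ∣ n := by omega
  have key : ∀ m < 43, m = 0 ∨ m = 35 ∨
      (¬ 5 ∣ 6 * m ∧ 4 * (1 + 1 * 1 * ((6 * m + 10 - 1) / 10)) < 4 + 1 + 6 * m) ∨
      (¬ 7 ∣ 6 * m ∧ 4 * (1 + 2 * 3 * ((6 * m + 42 - 1) / 42)) < 4 + 1 + 6 * m) := by decide
  rcases key m (by norm_num at hq; omega) with h0 | h0 | ⟨h0, h1⟩ | ⟨h0, h1⟩
  · omega
  · subst h0
    have p5 := dvd_of_prime (n := 6 * 35) Nat.prime_five (by norm_num)
    have p7 := dvd_of_prime (n := 6 * 35) (r := 7) (by norm_num) (by norm_num)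
    refine rule_false hS h 210 ∅ 48 (by norm_num)
      (dvd_of_mul (r := 6) (s := 35) p6 (dvd_of_mul (r := 5) (s := 7) p5 p7)) (by simp) ?_
      (by norm_num)
    have : Nat.totient 210 = 48 := by decide +kernel
    simp [this]
  · refine rule_false hS h 2 {5} _ (by norm_num) p2 ?_ le_rfl ?_
    · intro p hp; rw [Finset.mem_singleton] at hp; subst hp; exact ⟨by norm_num, by norm_num, h0⟩
    · simpa using h1
  · refine rule_false hS h 6 {7} _ (by norm_num) p6 ?_ le_rfl ?_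
    · intro p hp; rw [Finset.mem_singleton] at hp; subst hp; exact ⟨by norm_num, by norm_num, h0⟩
    · have : Nat.totient 6 = 2 := by decide +kernel
      simpa [this] using h1

theorem sml_five (hS : T_SIV) {a n q : ℕ} {R : Finset ℕ} (h : Cfg a n q 5 R) : False := by
  have d2 : 2 ∣ n := h.dvd 2 (by norm_num) (by norm_num)
  have d3 : 3 ∣ n := h.dvd 3 (by norm_num) (by norm_num)
  have d5 : 5 ∣ n := h.dvd 5 (by norm_num) (by norm_num)
  have p2 := dvd_of_prime (n := n) Nat.prime_two d2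
  have p3 := dvd_of_prime (n := n) Nat.prime_three d3
  have p5 := dvd_of_prime (n := n) Nat.prime_five d5
  have p6 : ∀ p : ℕ, p.Prime → p ∣ 6 → p ∣ n := dvd_of_mul (r := 2) (s := 3) p2 p3
  have hq := h.qle
  have hg := h.qge
  have hp := h.pos
  obtain ⟨m, rfl⟩ : 30 ∣ n := by omega
  have key : ∀ m < 35, m = 0 ∨ m = 7 ∨
      (¬ 7 ∣ 30 * m ∧ 5 * (1 + 1 * 2 * ((30 * m + 14 - 1) / 14)) < 5 + 1 + 30 * m) ∨
      (¬ 11 ∣ 30 * m ∧ 5 * (1 + 2 * 6 * ((30 * m + 66 - 1) / 66)) < 5 + 1 + 30 * m) := by decide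
  rcases key m (by norm_num at hq; omega) with h0 | h0 | ⟨h0, h1⟩ | ⟨h0, h1⟩
  · omega
  · subst h0
    have p7 := dvd_of_prime (n := 30 * 7) (r := 7) (by norm_num) (by norm_num)
    have h2 : a + 30 * 7 ≤ 5 * 48 := by
      refine rule_le hS h 210 ∅ 48 (by norm_num)
        (dvd_of_mul (r := 6) (s := 35) p6 (dvd_of_mul (r := 5) (s := 7) p5 p7)) (by simp) ?_
      have : Nat.totient 210 = 48 := by decide +kernel
      simp [this]
    exact no_210 (by simpa using h) (by omega)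
  · refine rule_false hS h 2 {7} _ (by norm_num) p2 ?_ le_rfl ?_
    · intro p hp; rw [Finset.mem_singleton] at hp; subst hp; exact ⟨by norm_num, by norm_num, h0⟩
    · simpa using h1
  · refine rule_false hS h 6 {11} _ (by norm_num) p6 ?_ le_rfl ?_
    · intro p hp; rw [Finset.mem_singleton] at hp; subst hp; exact ⟨by norm_num, by norm_num, h0⟩
    · have : Nat.totient 6 = 2 := by decide +kernel
      simpa [this] using h1

theorem sml_six (hS : T_SIV) {a n q : ℕ} {R : Finset ℕ} (h : Cfg a n q 6 R) : False := by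
  have d2 : 2 ∣ n := h.dvd 2 (by norm_num) (by norm_num)
  have d3 : 3 ∣ n := h.dvd 3 (by norm_num) (by norm_num)
  have d5 : 5 ∣ n := h.dvd 5 (by norm_num) (by norm_num)
  have p2 := dvd_of_prime (n := n) Nat.prime_two d2
  have p3 := dvd_of_prime (n := n) Nat.prime_three d3
  have p5 := dvd_of_prime (n := n) Nat.prime_five d5
  have p6 : ∀ p : ℕ, p.Prime → p ∣ 6 → p ∣ n := dvd_of_mul (r := 2) (s := 3) p2 p3
  have hq := h.qle
  have hg := h.qge
  have hp := h.pos
  obtain ⟨m, rfl⟩ : 30 ∣ n := by omega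
  have key : ∀ m < 137, m = 0 ∨ m = 7 ∨
      (¬ 11 ∣ 30 * m ∧ 6 * (1 + 2 * 5 * ((30 * m + 66 - 1) / 66)) < 6 + 1 + 30 * m) ∨
      (¬ 7 ∣ 30 * m ∧ 6 * (1 + 1 * 1 * ((30 * m + 7 - 1) / 7)) < 6 + 1 + 30 * m) ∨
      (¬ 13 ∣ 30 * m ∧ 6 * (1 + 8 * 7 * ((30 * m + 390 - 1) / 390)) < 6 + 1 + 30 * m) := by
    decide
  rcases key m (by norm_num at hq; omega) with h0 | h0 | ⟨h0, h1⟩ | ⟨h0, h1⟩ | ⟨h0, h1⟩
  · omega
  · subst h0
    have h2 : a + 30 * 7 ≤ 6 * 37 := by
      refine rule_le hS h 2 {11, 13} 37 (by norm_num) p2 ?_ ?_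
      · intro p hp
        rw [Finset.mem_insert, Finset.mem_singleton] at hp
        rcases hp with rfl | rfl
        · exact ⟨by norm_num, by norm_num, by norm_num⟩
        · exact ⟨by norm_num, by norm_num, by norm_num⟩
      · rw [Finset.prod_pair (by norm_num), Finset.prod_pair (by norm_num),
          Finset.card_pair (by norm_num)]
        simp
    exact no_210 (by simpa using h) (by omega)
  · refine rule_false hS h 6 {11} _ (by norm_num) p6 ?_ le_rfl ?_
    · intro p hp; rw [Finset.mem_singleton] at hp; subst hp; exact ⟨by norm_num, by norm_num, h0⟩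
    · have : Nat.totient 6 = 2 := by decide +kernel
      simpa [this] using h1
  · refine rule_false hS h 1 {7} _ (by norm_num) dvd_of_one ?_ le_rfl ?_
    · intro p hp; rw [Finset.mem_singleton] at hp; subst hp; exact ⟨by norm_num, by norm_num, h0⟩
    · simpa using h1
  · refine rule_false hS h 30 {13} _ (by norm_num) (dvd_of_mul (r := 6) (s := 5) p6 p5) ?_ le_rfl ?_
    · intro p hp; rw [Finset.mem_singleton] at hp; subst hp; exact ⟨by norm_num, by norm_num, h0⟩
    · have : Nat.totient 30 = 8 := by decide +kernel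
      simpa [this] using h1

theorem sml_seven (hS : T_SIV) {a n q : ℕ} {R : Finset ℕ} (h : Cfg a n q 7 R) : False := by
  have d2 : 2 ∣ n := h.dvd 2 (by norm_num) (by norm_num)
  have d3 : 3 ∣ n := h.dvd 3 (by norm_num) (by norm_num)
  have d5 : 5 ∣ n := h.dvd 5 (by norm_num) (by norm_num)
  have d7 : 7 ∣ n := h.dvd 7 (by norm_num) (by norm_num)
  have p2 := dvd_of_prime (n := n) Nat.prime_two d2
  have p3 := dvd_of_prime (n := n) Nat.prime_three d3
  have p6 : ∀ p : ℕ, p.Prime → p ∣ 6 → p ∣ n := dvd_of_mul (r := 2) (s := 3) p2 p3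
  have hq := h.qle
  have hg := h.qge
  have hp := h.pos
  obtain ⟨m, rfl⟩ : 210 ∣ n := by omega
  have key : ∀ m < 79, m = 0 ∨
      (¬ 11 ∣ 210 * m ∧ 7 * (1 + 2 * 4 * ((210 * m + 66 - 1) / 66)) < 7 + 1 + 210 * m) ∨
      ((¬ 13 ∣ 210 * m ∧ ¬ 17 ∣ 210 * m) ∧
        7 * (2 + 2 * 60 * ((210 * m + 1326 - 1) / 1326)) < 7 + 1 + 210 * m) ∨
      ((¬ 11 ∣ 210 * m ∧ ¬ 13 ∣ 210 * m) ∧
        7 * (2 + 1 * 24 * ((210 * m + 286 - 1) / 286)) < 7 + 1 + 210 * m) := by
    decide
  rcases key m (by norm_num at hq; omega) with h0 | ⟨h0, h1⟩ | ⟨⟨h0, h2⟩, h1⟩ | ⟨⟨h0, h2⟩, h1⟩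
  · omega
  · refine rule_false hS h 6 {11} _ (by norm_num) p6 ?_ le_rfl ?_
    · intro p hp; rw [Finset.mem_singleton] at hp; subst hp; exact ⟨by norm_num, by norm_num, h0⟩
    · have : Nat.totient 6 = 2 := by decide +kernel
      simpa [this] using h1
  · refine rule_false hS h 6 {13, 17} _ (by norm_num) p6 ?_ le_rfl ?_
    · intro p hp
      rw [Finset.mem_insert, Finset.mem_singleton] at hp
      rcases hp with rfl | rfl
      · exact ⟨by norm_num, by norm_num, h0⟩
      · exact ⟨by norm_num, by norm_num, h2⟩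
    · have : Nat.totient 6 = 2 := by decide +kernel
      rw [Finset.prod_pair (by norm_num), Finset.prod_pair (by norm_num),
        Finset.card_pair (by norm_num), this]
      exact h1
  · refine rule_false hS h 2 {11, 13} _ (by norm_num) p2 ?_ le_rfl ?_
    · intro p hp
      rw [Finset.mem_insert, Finset.mem_singleton] at hp
      rcases hp with rfl | rfl
      · exact ⟨by norm_num, by norm_num, h0⟩
      · exact ⟨by norm_num, by norm_num, h2⟩
    · rw [Finset.prod_pair (by norm_num), Finset.prod_pair (by norm_num),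
        Finset.card_pair (by norm_num), Nat.totient_two]
      exact h1

theorem pf_sml (hS : T_SIV) : T_SML := by
  intro a n q M R h
  by_contra hM
  have h4 := h.four
  have : M = 4 ∨ M = 5 ∨ M = 6 ∨ M = 7 := by omega
  rcases this with rfl | rfl | rfl | rfl
  · exact sml_four hS h
  · exact sml_five hS h
  · exact sml_six hS h
  · exact sml_seven hS h

end Pool.Agent.H51.UL
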